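import Mathlib
import Pool.Agent.H253_GQ.Core11c

/-!
# No generalized quadrangle of order `(4, 11)`
-/

open Finset

universe u v

namespace Pool.Agent.Results.MP_a3aa3c_co.NoGQ4_11

/-- The incidence structure with points `P`, lines `B` and incidence relation `I` satisfies the
axioms of a generalized quadrangle of order `(s, t)`:
* each line is incident with exactly `s + 1` points,
* each point is incident with exactly `t + 1` lines,
* two distinct points are incident with at most one common line,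
* for a point `p` and a line `L` that are not incident there is exactly one pair `(q, M)` of a
  point and a line with `q` on `L`, `M` through `p`, and `q` on `M`. -/
structure IsGQ {P : Type u} {B : Type v} (I : P → B → Prop) (s t : ℕ) : Prop where
  line_card : ∀ L : B, Nat.card {p : P // I p L} = s + 1
  point_card : ∀ p : P, Nat.card {L : B // I p L} = t + 1
  two_points : ∀ p q : P, p ≠ q → ∀ L M : B, I p L → I q L → I p M → I q M → L = M
  projection : ∀ (p : P) (L : B), ¬ I p L →
    ∃! x : P × B, I x.1 L ∧ I p x.2 ∧ I x.1 x.2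

open Classical in
/-- Incidence as a number. -/
noncomputable def Nf {P : Type u} {B : Type v} (I : P → B → Prop) (x : P) (L : B) : ℝ :=
  if I x L then 1 else 0

open Classical in
/-- Collinearity of distinct points as a number. -/
noncomputable def Af {P : Type u} {B : Type v} (I : P → B → Prop) (x y : P) : ℝ :=
  if x ≠ y ∧ ∃ L, I x L ∧ I y L then 1 else 0

section
variable {P : Type u} {B : Type v} [Fintype P] [Fintype B] [DecidableEq P]
  {I : P → B → Prop} {s t : ℕ}

omit [Fintype P] [Fintype B] [DecidableEq P] in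
theorem Nf_pos {x : P} {L : B} (h : I x L) : Nf I x L = 1 := by simp [Nf, h]

omit [Fintype P] [Fintype B] [DecidableEq P] in
theorem Nf_neg {x : P} {L : B} (h : ¬ I x L) : Nf I x L = 0 := by simp [Nf, h]

omit [Fintype P] [Fintype B] [DecidableEq P] in
theorem Af_self (x : P) : Af I x x = 0 := by simp [Af]

omit [Fintype P] [Fintype B] [DecidableEq P] in
theorem Af_pos {x y : P} (hne : x ≠ y) {L : B} (hx : I x L) (hy : I y L) : Af I x y = 1 := by
  rw [Af, if_pos ⟨hne, L, hx, hy⟩]

omit [Fintype P] [Fintype B] [DecidableEq P] in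
theorem Af_one_iff {x y : P} : Af I x y = 1 ↔ x ≠ y ∧ ∃ L, I x L ∧ I y L := by
  unfold Af
  split_ifs with h <;> simp [h]

omit [Fintype P] [Fintype B] [DecidableEq P] in
theorem Af_zero_one (x y : P) : Af I x y = 0 ∨ Af I x y = 1 := by
  unfold Af
  split_ifs <;> simp

omit [Fintype P] [Fintype B] [DecidableEq P] in
theorem Af_symm (x y : P) : Af I x y = Af I y x := by
  unfold Af
  congr 1
  apply propext
  constructor
  · rintro ⟨h, L, h1, h2⟩
    exact ⟨h.symm, L, h2, h1⟩
  · rintro ⟨h, L, h1, h2⟩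
    exact ⟨h.symm, L, h2, h1⟩

omit [Fintype B] [DecidableEq P] in
theorem sum_points (h : IsGQ I s t) (L : B) : ∑ x, Nf I x L = (s : ℝ) + 1 := by
  classical
  have h1 := h.line_card L
  rw [Nat.card_eq_fintype_card, Fintype.card_subtype] at h1
  unfold Nf
  rw [Finset.sum_boole, h1]
  push_cast
  ring

omit [Fintype P] [DecidableEq P] in
theorem sum_lines (h : IsGQ I s t) (x : P) : ∑ L, Nf I x L = (t : ℝ) + 1 := by
  classical
  have h1 := h.point_card x
  rw [Nat.card_eq_fintype_card, Fintype.card_subtype] at h1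
  unfold Nf
  rw [Finset.sum_boole, h1]
  push_cast
  ring

omit [Fintype P] in
theorem sum_Nf_Nf (h : IsGQ I s t) (x y : P) :
    ∑ L, Nf I x L * Nf I y L = Af I x y + ((t : ℝ) + 1) * (1 : Matrix P P ℝ) x y := by
  by_cases hxy : x = y
  · subst hxy
    rw [Af_self, Matrix.one_apply_eq, ← sum_lines h x]
    have : ∀ L, Nf I x L * Nf I x L = Nf I x L := by
      intro L
      by_cases hL : I x L
      · rw [Nf_pos hL]; ring
      · rw [Nf_neg hL]; ring
    simp_rw [this]
    ring
  · rw [Matrix.one_apply_ne hxy]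
    by_cases hc : ∃ L, I x L ∧ I y L
    · obtain ⟨L, hx, hy⟩ := hc
      rw [Af_pos hxy hx hy, Finset.sum_eq_single L]
      · rw [Nf_pos hx, Nf_pos hy]; ring
      · intro M _ hM
        by_cases hxM : I x M
        · by_cases hyM : I y M
          · exact absurd (h.two_points x y hxy M L hxM hyM hx hy) hM
          · rw [Nf_neg hyM]; ring
        · rw [Nf_neg hxM]; ring
      · intro hL
        exact absurd (Finset.mem_univ L) hL
    · have hA : Af I x y = 0 := by
        rcases Af_zero_one (I := I) x y with h0 | h0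
        · exact h0
        · exact absurd (Af_one_iff.1 h0).2 hc
      rw [hA]
      have : ∀ L, Nf I x L * Nf I y L = 0 := by
        intro L
        by_cases hxM : I x L
        · by_cases hyM : I y L
          · exact absurd ⟨L, hxM, hyM⟩ hc
          · rw [Nf_neg hyM]; ring
        · rw [Nf_neg hxM]; ring
      simp_rw [this]
      simp

omit [Fintype B] in
/-- The key incidence identity. -/
theorem sum_Af_Nf (h : IsGQ I s t) (z : P) (L : B) :
    ∑ w, Af I z w * Nf I w L = 1 + ((s : ℝ) - 1) * Nf I z L := by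
  by_cases hz : I z L
  · rw [Nf_pos hz]
    have key : ∀ w, Af I z w * Nf I w L = Nf I w L - (1 : Matrix P P ℝ) z w := by
      intro w
      by_cases hzw : z = w
      · subst hzw
        rw [Af_self, Nf_pos hz, Matrix.one_apply_eq]; ring
      · rw [Matrix.one_apply_ne hzw]
        by_cases hw : I w L
        · rw [Af_pos hzw hz hw]; ring
        · rw [Nf_neg hw]; ring
    simp_rw [key, Finset.sum_sub_distrib, sum_points h L]
    simp [Matrix.one_apply]
  · rw [Nf_neg hz]
    obtain ⟨⟨w, M⟩, ⟨h1, h2, h3⟩, huniq⟩ := h.projection z L hz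
    simp only at h1 h2 h3
    have hzw : z ≠ w := by
      rintro rfl
      exact hz h1
    rw [Finset.sum_eq_single w]
    · rw [Af_pos hzw h2 h3, Nf_pos h1]; ring
    · intro w' _ hw'
      by_cases hwL : I w' L
      · rcases Af_zero_one (I := I) z w' with h0 | h0
        · rw [h0]; ring
        · obtain ⟨_, M', h4, h5⟩ := Af_one_iff.1 h0
          have := huniq (w', M') ⟨hwL, h4, h5⟩
          exact absurd (congrArg Prod.fst this) hw'
      · rw [Nf_neg hwL]; ring
    · intro hL
      exact absurd (Finset.mem_univ w) hL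

/-- The collinearity matrix has the properties used in the linear algebra. -/
theorem gqMat (h : IsGQ I s t) :
    Pool.Agent.H253_GQ.GQMat (Af I) (s : ℝ) ((t : ℝ) + 1) where
  zero_one := Af_zero_one
  symm := Af_symm
  diag := Af_self
  deg := by
    intro x
    have h1 : ∀ y, Af I x y = ∑ L, Nf I x L * Nf I y L
        - ((t : ℝ) + 1) * (1 : Matrix P P ℝ) x y := by
      intro y
      rw [sum_Nf_Nf h]; ring
    simp_rw [h1, Finset.sum_sub_distrib, ← Finset.mul_sum]
    rw [Finset.sum_comm]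
    simp_rw [← Finset.mul_sum, sum_points h, ← Finset.sum_mul, sum_lines h]
    have : ∑ i, (1 : Matrix P P ℝ) x i = 1 := by simp [Matrix.one_apply]
    rw [this]
    ring
  sq := by
    intro x z
    have h1 : ∀ y, Af I x y * Af I y z = ∑ L, Nf I z L * (Af I x y * Nf I y L)
        - ((t : ℝ) + 1) * ((1 : Matrix P P ℝ) y z * Af I x y) := by
      intro y
      have h2 := sum_Nf_Nf h y z
      have h3 : Af I y z = ∑ L, Nf I y L * Nf I z L
          - ((t : ℝ) + 1) * (1 : Matrix P P ℝ) y z := by rw [h2]; ring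
      rw [h3, mul_sub, Finset.mul_sum]
      congr 1
      · exact Finset.sum_congr rfl fun L _ => by ring
      · ring
    simp_rw [h1, Finset.sum_sub_distrib, ← Finset.mul_sum]
    rw [Finset.sum_comm]
    simp_rw [← Finset.mul_sum, sum_Af_Nf h]
    have h4 : ∑ i, (1 : Matrix P P ℝ) i z * Af I x i = Af I x z := by simp [Matrix.one_apply]
    have h5 : ∀ L, Nf I z L * (1 + ((s : ℝ) - 1) * Nf I x L)
        = Nf I z L + ((s : ℝ) - 1) * (Nf I x L * Nf I z L) := by
      intro L
      ring
    rw [h4]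
    simp_rw [h5, Finset.sum_add_distrib, ← Finset.mul_sum, sum_lines h, sum_Nf_Nf h x z]
    ring
  line := by
    intro p q hpq z
    obtain ⟨hne, L, hp, hq⟩ := Af_one_iff.1 hpq
    have key : ∀ w, Af I p w * Af I q w + (1 : Matrix P P ℝ) p w + (1 : Matrix P P ℝ) q w
        = Nf I w L := by
      intro w
      by_cases h1 : p = w
      · subst h1
        rw [Af_self, Matrix.one_apply_eq, Matrix.one_apply_ne hne.symm, Nf_pos hp]; ring
      · by_cases h2 : q = w
        · subst h2
          rw [Af_self, Matrix.one_apply_eq, Matrix.one_apply_ne hne, Nf_pos hq]; ring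
        · rw [Matrix.one_apply_ne h1, Matrix.one_apply_ne h2]
          by_cases hw : I w L
          · rw [Af_pos h1 hp hw, Af_pos h2 hq hw, Nf_pos hw]; ring
          · rw [Nf_neg hw]
            rcases Af_zero_one (I := I) p w with h3 | h3
            · rw [h3]; ring
            · rcases Af_zero_one (I := I) q w with h4 | h4
              · rw [h4]; ring
              · exfalso
                obtain ⟨_, M1, h5, h6⟩ := Af_one_iff.1 h3
                obtain ⟨_, M2, h7, h8⟩ := Af_one_iff.1 h4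
                have e := (h.projection w L hw).unique
                  (y₁ := (p, M1)) (y₂ := (q, M2)) ⟨hp, h6, h5⟩ ⟨hq, h8, h7⟩
                exact hne (congrArg Prod.fst e)
    simp_rw [key]
    exact sum_Af_Nf h z L

open Pool.Agent.H253_GQ.Eleven in
omit [Fintype P] [Fintype B] in
/-- The line vector of two points of a line. -/
theorem e_eq (h : IsGQ I s t) {p q : P} (hpq : p ≠ q) {L : B} (hp : I p L) (hq : I q L) (w : P) :
    e (Af I) p q w = Nf I w L := by
  unfold e
  by_cases h1 : p = w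
  · subst h1
    rw [Af_self, Matrix.one_apply_eq, Matrix.one_apply_ne hpq.symm, Nf_pos hp]; ring
  · by_cases h2 : q = w
    · subst h2
      rw [Af_self, Matrix.one_apply_eq, Matrix.one_apply_ne hpq, Nf_pos hq]; ring
    · rw [Matrix.one_apply_ne h1, Matrix.one_apply_ne h2]
      by_cases hw : I w L
      · rw [Af_pos h1 hp hw, Af_pos h2 hq hw, Nf_pos hw]; ring
      · rw [Nf_neg hw]
        rcases Af_zero_one (I := I) p w with h3 | h3
        · rw [h3]; ring
        · rcases Af_zero_one (I := I) q w with h4 | h4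
          · rw [h4]; ring
          · exfalso
            obtain ⟨_, M1, h5, h6⟩ := Af_one_iff.1 h3
            obtain ⟨_, M2, h7, h8⟩ := Af_one_iff.1 h4
            have e := (h.projection w L hw).unique
              (y₁ := (p, M1)) (y₂ := (q, M2)) ⟨hp, h6, h5⟩ ⟨hq, h8, h7⟩
            exact hpq (congrArg Prod.fst e)

omit [Fintype B] [DecidableEq P] in
/-- Parametrisation of the five points of a line. -/
theorem line_param (h : IsGQ I 4 t) (L : B) : ∃ x : Fin 5 → P,
    (∀ i, I (x i) L) ∧ Function.Injective x ∧ (∀ p, I p L → ∃ i, x i = p) ∧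
    ∀ φ : P → ℝ, ∑ y, Nf I y L * φ y = ∑ i, φ (x i) := by
  classical
  have h1 := h.line_card L
  rw [Nat.card_eq_fintype_card] at h1
  let σ : {p : P // I p L} ≃ Fin 5 := Fintype.equivFinOfCardEq h1
  refine ⟨fun i => (σ.symm i).1, fun i => (σ.symm i).2, ?_, ?_, ?_⟩
  · intro i j hij
    exact σ.symm.injective (Subtype.ext hij)
  · intro p hp
    exact ⟨σ ⟨p, hp⟩, by simp⟩
  · intro φ
    have h2 : ∑ i, φ (σ.symm i).1 = ∑ y : {p : P // I p L}, φ y.1 :=
      Equiv.sum_comp σ.symm (fun y : {p : P // I p L} => φ y.1)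
    rw [h2]
    have h3 : ∑ y : {p : P // I p L}, φ y.1 = ∑ y ∈ Finset.univ.filter (fun y => I y L), φ y := by
      rw [← Finset.sum_subtype_eq_sum_filter]
      simp
    rw [h3, Finset.sum_filter]
    refine Finset.sum_congr rfl fun y _ => ?_
    by_cases hy : I y L
    · rw [Nf_pos hy, if_pos hy]; ring
    · rw [Nf_neg hy, if_neg hy]; ring

end

/-- The weights of the final count. -/
def hz : ℕ → ℤ
  | 0 => 2
  | 1 => -24
  | 2 => 5
  | 3 => -36
  | 4 => -282
  | _ => 0

/-- The contribution of a line with values `a, b, c, d, e`. -/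
def Psi (a b c d e : ℕ) : ℤ :=
  4 * ((a : ℤ) ^ 2 + (b : ℤ) ^ 2 + (c : ℤ) ^ 2 + (d : ℤ) ^ 2 + (e : ℤ) ^ 2) *
      (hz a + hz b + hz c + hz d + hz e)
    - 5 * (hz a * ((a : ℤ) ^ 2 - 3 * a + 10) + hz b * ((b : ℤ) ^ 2 - 3 * b + 10)
      + hz c * ((c : ℤ) ^ 2 - 3 * c + 10) + hz d * ((d : ℤ) ^ 2 - 3 * d + 10)
      + hz e * ((e : ℤ) ^ 2 - 3 * e + 10))

theorem psi_fin : ∀ a b c d : Fin 6, a.val + b.val + c.val + d.val ≤ 5 →
    0 ≤ Psi a b c d (5 - a - b - c - d) ∧
    ((a.val = 5 ∨ b.val = 5 ∨ c.val = 5 ∨ d.val = 5 ∨ 5 - a.val - b.val - c.val - d.val = 5) →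
      0 < Psi a b c d (5 - a - b - c - d)) := by
  decide +kernel

theorem psi_nonneg {a b c d e : ℕ} (h : a + b + c + d + e = 5) :
    0 ≤ Psi a b c d e ∧
    ((a = 5 ∨ b = 5 ∨ c = 5 ∨ d = 5 ∨ e = 5) → 0 < Psi a b c d e) := by
  have he : e = 5 - a - b - c - d := by omega
  have := psi_fin ⟨a, by omega⟩ ⟨b, by omega⟩ ⟨c, by omega⟩ ⟨d, by omega⟩ (by simp; omega)
  simp only at this
  rw [he]
  exact this

/-- **There is no finite generalized quadrangle of order `(4, 11)`.** -/
theorem result (P : Type u) (B : Type v) [Finite P] [Finite B] [Nonempty P] (I : P → B → Prop) :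
    ¬ IsGQ I 4 11 := by
  classical
  intro h
  have := Fintype.ofFinite P
  have := Fintype.ofFinite B
  have hA : Pool.Agent.H253_GQ.GQMat (Af I) 4 12 := by
    have := gqMat h
    norm_num at this
    exact this
  obtain ⟨p⟩ := ‹Nonempty P›
  obtain ⟨f, hint, hfp, hlow, hsq, hlin, hline⟩ := Pool.Agent.H253_GQ.Eleven.exists_F hA p
  -- pass to `g = f + 1`
  have hg : ∀ y, ∃ n : ℕ, f y + 1 = n := by
    intro y
    obtain ⟨k, hk⟩ := hint y
    have h1 := hlow y
    rw [hk] at h1
    have h2 : (0 : ℤ) ≤ k + 1 := by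
      have : (-1 : ℤ) ≤ k := by exact_mod_cast h1
      linarith
    refine ⟨(k + 1).toNat, ?_⟩
    rw [hk]
    have h3 : (((k + 1).toNat : ℤ) : ℝ) = ((k + 1 : ℤ) : ℝ) := by rw [Int.toNat_of_nonneg h2]
    push_cast at h3
    rw [h3]
  choose g hg using hg
  -- squares over the neighbours
  have hnb : ∀ y, ∑ z, Af I y z * (g z : ℝ) ^ 2 = 3 * (g y : ℝ) ^ 2 - 45 * g y + 150 := by
    intro y
    have key : ∀ z, Af I y z * (g z : ℝ) ^ 2
        = Af I y z * f z ^ 2 + 2 * (Af I y z * f z) + Af I y z := by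
      intro z
      rw [← hg z]; ring
    simp_rw [key, Finset.sum_add_distrib, ← Finset.mul_sum, hsq, hlin, hA.deg, ← hg y]
    ring
  -- squares over the lines through `y`
  have hthrough : ∀ y, ∑ L, Nf I y L * ∑ z, Nf I z L * (g z : ℝ) ^ 2
      = 15 * ((g y : ℝ) ^ 2 - 3 * g y + 10) := by
    intro y
    have h1 : ∀ L, Nf I y L * ∑ z, Nf I z L * (g z : ℝ) ^ 2
        = ∑ z, Nf I y L * Nf I z L * (g z : ℝ) ^ 2 := by
      intro L
      rw [Finset.mul_sum]
      exact Finset.sum_congr rfl fun z _ => by ring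
    simp_rw [h1]
    rw [Finset.sum_comm]
    simp_rw [← Finset.sum_mul, sum_Nf_Nf h, add_mul, Finset.sum_add_distrib, hnb, mul_assoc,
      ← Finset.mul_sum]
    have h2 : ∑ z, (1 : Matrix P P ℝ) y z * (g z : ℝ) ^ 2 = (g y : ℝ) ^ 2 :=
      Pool.Agent.H253_GQ.sum_one_mul y _
    rw [h2]
    push_cast
    ring
  -- the double count
  have hcount : ∑ L, (4 * (∑ z, Nf I z L * (g z : ℝ) ^ 2) * (∑ z, Nf I z L * (hz (g z) : ℝ))
      - 5 * ∑ z, Nf I z L * ((hz (g z) : ℝ) * ((g z : ℝ) ^ 2 - 3 * g z + 10))) = 0 := by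
    have h1 : ∀ L, 4 * (∑ z, Nf I z L * (g z : ℝ) ^ 2) * (∑ z, Nf I z L * (hz (g z) : ℝ))
        = ∑ y, 4 * (hz (g y) : ℝ) * (Nf I y L * ∑ z, Nf I z L * (g z : ℝ) ^ 2) := by
      intro L
      rw [Finset.mul_sum]
      exact Finset.sum_congr rfl fun z _ => by ring
    have h2 : ∀ L, 5 * ∑ z, Nf I z L * ((hz (g z) : ℝ) * ((g z : ℝ) ^ 2 - 3 * g z + 10))
        = ∑ y, 5 * ((hz (g y) : ℝ) * ((g y : ℝ) ^ 2 - 3 * g y + 10)) * Nf I y L := by
      intro L
      rw [Finset.mul_sum]
      exact Finset.sum_congr rfl fun z _ => by ring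
    simp_rw [h1, h2, Finset.sum_sub_distrib]
    rw [Finset.sum_comm]
    conv_lhs => rw [Finset.sum_comm (s := (Finset.univ : Finset B)) (t := (Finset.univ : Finset P))
      (f := fun L y => 5 * ((hz (g y) : ℝ) * ((g y : ℝ) ^ 2 - 3 * g y + 10)) * Nf I y L)]
    simp_rw [← Finset.mul_sum, hthrough, sum_lines h, ← Finset.sum_sub_distrib]
    apply Finset.sum_eq_zero
    intro y _
    push_cast
    ring
  -- every line sum is five
  have hfive : ∀ L, ∀ x : Fin 5 → P, (∀ i, I (x i) L) → Function.Injective x →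
      (∀ φ : P → ℝ, ∑ y, Nf I y L * φ y = ∑ i, φ (x i)) →
      g (x 0) + g (x 1) + g (x 2) + g (x 3) + g (x 4) = 5 := by
    intro L x hx hinj hsum
    have hne : x 0 ≠ x 1 := fun hh => by simpa using hinj hh
    have h1 := hline (x 0) (x 1) (Af_pos hne (hx 0) (hx 1))
    simp_rw [e_eq h hne (hx 0) (hx 1)] at h1
    rw [hsum] at h1
    have h2 : ∀ y, f y = (g y : ℝ) - 1 := fun y => by rw [← hg y]; ring
    simp only [Fin.sum_univ_five, h2] at h1
    have h3 : ((g (x 0) + g (x 1) + g (x 2) + g (x 3) + g (x 4) : ℕ) : ℝ) = ((5 : ℕ) : ℝ) := by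
      push_cast
      linarith
    exact_mod_cast h3
  have hterm : ∀ L, ∃ x : Fin 5 → P, (∀ p, I p L → ∃ i, x i = p) ∧
      g (x 0) + g (x 1) + g (x 2) + g (x 3) + g (x 4) = 5 ∧
      (4 * (∑ z, Nf I z L * (g z : ℝ) ^ 2) * (∑ z, Nf I z L * (hz (g z) : ℝ))
      - 5 * ∑ z, Nf I z L * ((hz (g z) : ℝ) * ((g z : ℝ) ^ 2 - 3 * g z + 10)))
      = (Psi (g (x 0)) (g (x 1)) (g (x 2)) (g (x 3)) (g (x 4)) : ℝ) := by
    intro L
    obtain ⟨x, hx, hinj, hsurj, hsum⟩ := line_param h L
    refine ⟨x, hsurj, hfive L x hx hinj hsum, ?_⟩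
    rw [hsum, hsum, hsum]
    simp only [Fin.sum_univ_five, Psi]
    push_cast
    ring
  -- a line through `p`
  have hL : ∃ L, I p L := by
    by_contra hcon
    push Not at hcon
    have h1 := sum_lines h p
    have h2 : ∑ L, Nf I p L = 0 := Finset.sum_eq_zero fun L _ => Nf_neg (hcon L)
    rw [h2] at h1
    norm_num at h1
  obtain ⟨L, hpL⟩ := hL
  have hgp : g p = 5 := by
    have h1 := hg p
    rw [hfp] at h1
    have h2 : ((g p : ℕ) : ℝ) = ((5 : ℕ) : ℝ) := by rw [← h1]; norm_num
    exact_mod_cast h2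
  have hnn : ∀ M ∈ (Finset.univ : Finset B), 0 ≤
      (4 * (∑ z, Nf I z M * (g z : ℝ) ^ 2) * (∑ z, Nf I z M * (hz (g z) : ℝ))
      - 5 * ∑ z, Nf I z M * ((hz (g z) : ℝ) * ((g z : ℝ) ^ 2 - 3 * g z + 10))) := by
    intro M _
    obtain ⟨x, _, h5, heq⟩ := hterm M
    rw [heq]
    exact_mod_cast (psi_nonneg h5).1
  have hzero := (Finset.sum_eq_zero_iff_of_nonneg hnn).1 hcount L (Finset.mem_univ L)
  obtain ⟨x, hsurj, h5, heq⟩ := hterm L
  rw [heq] at hzero
  have hpos := (psi_nonneg h5).2 (by
    obtain ⟨i, hi⟩ := hsurj p hpL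
    fin_cases i
    · left; simpa using (congrArg g hi).trans hgp
    · right; left; simpa using (congrArg g hi).trans hgp
    · right; right; left; simpa using (congrArg g hi).trans hgp
    · right; right; right; left; simpa using (congrArg g hi).trans hgp
    · right; right; right; right; simpa using (congrArg g hi).trans hgp)
  have hzero' : Psi (g (x 0)) (g (x 1)) (g (x 2)) (g (x 3)) (g (x 4)) = 0 := by
    exact_mod_cast hzero
  rw [hzero'] at hpos
  exact lt_irrefl _ hpos

end Pool.Agent.Results.MP_a3aa3c_co.NoGQ4_11
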