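import Mathlib
import Pool.Agent.H253_GQ.Core

/-!
# No generalized quadrangle of order `(s, s^2 - s)` for `s ≥ 3`

For `s = 4` this is the order `(4, 12)`.
-/

open Finset

universe u v

namespace Pool.Agent.Results.MP_a3aa3c_co.NoGQSqSubS

/-- The incidence structure with points `P`, lines `B` and incidence relation `I` satisfies the
axioms of a generalized quadrangle of order `(s, t)`:
* each line is incident with exactly `s + 1` points,
* each point is incident with exactly `t + 1` lines,
* two distinct points are incident with at most one common line,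
* for a point `p` and a line `L` that are not incident there is exactly one pair `(q, M)` of a
  point and a line with `q` on `L`, `M` through `p`, and `q` on `M`. -/
structure IsGQ {P : Type u} {B : Type v} (I : P → B → Prop) (s t : ℕ) : Prop where
  line_card : ∀ L : B, Nat.card {p : P // I p L} = s + 1
  point_card : ∀ p : P, Nat.card {L : B // I p L} = t + 1
  two_points : ∀ p q : P, p ≠ q → ∀ L M : B, I p L → I q L → I p M → I q M → L = M
  projection : ∀ (p : P) (L : B), ¬ I p L →
    ∃! x : P × B, I x.1 L ∧ I p x.2 ∧ I x.1 x.2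

open Classical in
/-- Incidence as a number. -/
noncomputable def Nf {P : Type u} {B : Type v} (I : P → B → Prop) (x : P) (L : B) : ℝ :=
  if I x L then 1 else 0

open Classical in
/-- Collinearity of distinct points as a number. -/
noncomputable def Af {P : Type u} {B : Type v} (I : P → B → Prop) (x y : P) : ℝ :=
  if x ≠ y ∧ ∃ L, I x L ∧ I y L then 1 else 0

section
variable {P : Type u} {B : Type v} [Fintype P] [Fintype B] [DecidableEq P]
  {I : P → B → Prop} {s t : ℕ}

omit [Fintype P] [Fintype B] [DecidableEq P] in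
theorem Nf_pos {x : P} {L : B} (h : I x L) : Nf I x L = 1 := by simp [Nf, h]

omit [Fintype P] [Fintype B] [DecidableEq P] in
theorem Nf_neg {x : P} {L : B} (h : ¬ I x L) : Nf I x L = 0 := by simp [Nf, h]

omit [Fintype P] [Fintype B] [DecidableEq P] in
theorem Af_self (x : P) : Af I x x = 0 := by simp [Af]

omit [Fintype P] [Fintype B] [DecidableEq P] in
theorem Af_pos {x y : P} (hne : x ≠ y) {L : B} (hx : I x L) (hy : I y L) : Af I x y = 1 := by
  rw [Af, if_pos ⟨hne, L, hx, hy⟩]

omit [Fintype P] [Fintype B] [DecidableEq P] in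
theorem Af_one_iff {x y : P} : Af I x y = 1 ↔ x ≠ y ∧ ∃ L, I x L ∧ I y L := by
  unfold Af
  split_ifs with h <;> simp [h]

omit [Fintype P] [Fintype B] [DecidableEq P] in
theorem Af_zero_one (x y : P) : Af I x y = 0 ∨ Af I x y = 1 := by
  unfold Af
  split_ifs <;> simp

omit [Fintype P] [Fintype B] [DecidableEq P] in
theorem Af_symm (x y : P) : Af I x y = Af I y x := by
  unfold Af
  congr 1
  apply propext
  constructor
  · rintro ⟨h, L, h1, h2⟩
    exact ⟨h.symm, L, h2, h1⟩
  · rintro ⟨h, L, h1, h2⟩
    exact ⟨h.symm, L, h2, h1⟩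

omit [Fintype B] [DecidableEq P] in
theorem sum_points (h : IsGQ I s t) (L : B) : ∑ x, Nf I x L = (s : ℝ) + 1 := by
  classical
  have h1 := h.line_card L
  rw [Nat.card_eq_fintype_card, Fintype.card_subtype] at h1
  unfold Nf
  rw [Finset.sum_boole, h1]
  push_cast
  ring

omit [Fintype P] [DecidableEq P] in
theorem sum_lines (h : IsGQ I s t) (x : P) : ∑ L, Nf I x L = (t : ℝ) + 1 := by
  classical
  have h1 := h.point_card x
  rw [Nat.card_eq_fintype_card, Fintype.card_subtype] at h1
  unfold Nf
  rw [Finset.sum_boole, h1]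
  push_cast
  ring

omit [Fintype P] in
theorem sum_Nf_Nf (h : IsGQ I s t) (x y : P) :
    ∑ L, Nf I x L * Nf I y L = Af I x y + ((t : ℝ) + 1) * (1 : Matrix P P ℝ) x y := by
  by_cases hxy : x = y
  · subst hxy
    rw [Af_self, Matrix.one_apply_eq, ← sum_lines h x]
    have : ∀ L, Nf I x L * Nf I x L = Nf I x L := by
      intro L
      by_cases hL : I x L
      · rw [Nf_pos hL]; ring
      · rw [Nf_neg hL]; ring
    simp_rw [this]
    ring
  · rw [Matrix.one_apply_ne hxy]
    by_cases hc : ∃ L, I x L ∧ I y L
    · obtain ⟨L, hx, hy⟩ := hc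
      rw [Af_pos hxy hx hy, Finset.sum_eq_single L]
      · rw [Nf_pos hx, Nf_pos hy]; ring
      · intro M _ hM
        by_cases hxM : I x M
        · by_cases hyM : I y M
          · exact absurd (h.two_points x y hxy M L hxM hyM hx hy) hM
          · rw [Nf_neg hyM]; ring
        · rw [Nf_neg hxM]; ring
      · intro hL
        exact absurd (Finset.mem_univ L) hL
    · have hA : Af I x y = 0 := by
        rcases Af_zero_one (I := I) x y with h0 | h0
        · exact h0
        · exact absurd (Af_one_iff.1 h0).2 hc
      rw [hA]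
      have : ∀ L, Nf I x L * Nf I y L = 0 := by
        intro L
        by_cases hxM : I x L
        · by_cases hyM : I y L
          · exact absurd ⟨L, hxM, hyM⟩ hc
          · rw [Nf_neg hyM]; ring
        · rw [Nf_neg hxM]; ring
      simp_rw [this]
      simp

/-- The key incidence identity. -/
theorem sum_Af_Nf (h : IsGQ I s t) (z : P) (L : B) :
    ∑ w, Af I z w * Nf I w L = 1 + ((s : ℝ) - 1) * Nf I z L := by
  by_cases hz : I z L
  · rw [Nf_pos hz]
    have key : ∀ w, Af I z w * Nf I w L = Nf I w L - (1 : Matrix P P ℝ) z w := by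
      intro w
      by_cases hzw : z = w
      · subst hzw
        rw [Af_self, Nf_pos hz, Matrix.one_apply_eq]; ring
      · rw [Matrix.one_apply_ne hzw]
        by_cases hw : I w L
        · rw [Af_pos hzw hz hw]; ring
        · rw [Nf_neg hw]; ring
    simp_rw [key, Finset.sum_sub_distrib, sum_points h L]
    simp [Matrix.one_apply]
  · rw [Nf_neg hz]
    obtain ⟨⟨w, M⟩, ⟨h1, h2, h3⟩, huniq⟩ := h.projection z L hz
    simp only at h1 h2 h3
    have hzw : z ≠ w := by
      rintro rfl
      exact hz h1
    rw [Finset.sum_eq_single w]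
    · rw [Af_pos hzw h2 h3, Nf_pos h1]; ring
    · intro w' _ hw'
      by_cases hwL : I w' L
      · rcases Af_zero_one (I := I) z w' with h0 | h0
        · rw [h0]; ring
        · obtain ⟨_, M', h4, h5⟩ := Af_one_iff.1 h0
          have := huniq (w', M') ⟨hwL, h4, h5⟩
          exact absurd (congrArg Prod.fst this) hw'
      · rw [Nf_neg hwL]; ring
    · intro hL
      exact absurd (Finset.mem_univ w) hL

/-- The collinearity matrix has the properties used in the linear algebra. -/
theorem gqMat (h : IsGQ I s t) :
    Pool.Agent.H253_GQ.GQMat (Af I) (s : ℝ) ((t : ℝ) + 1) where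
  zero_one := Af_zero_one
  symm := Af_symm
  diag := Af_self
  deg := by
    intro x
    have h1 : ∀ y, Af I x y = ∑ L, Nf I x L * Nf I y L
        - ((t : ℝ) + 1) * (1 : Matrix P P ℝ) x y := by
      intro y
      rw [sum_Nf_Nf h]; ring
    simp_rw [h1, Finset.sum_sub_distrib, ← Finset.mul_sum]
    rw [Finset.sum_comm]
    simp_rw [← Finset.mul_sum, sum_points h, ← Finset.sum_mul, sum_lines h]
    have : ∑ i, (1 : Matrix P P ℝ) x i = 1 := by simp [Matrix.one_apply]
    rw [this]
    ring
  sq := by
    intro x z
    have h1 : ∀ y, Af I x y * Af I y z = ∑ L, Nf I z L * (Af I x y * Nf I y L)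
        - ((t : ℝ) + 1) * ((1 : Matrix P P ℝ) y z * Af I x y) := by
      intro y
      have h2 := sum_Nf_Nf h y z
      have h3 : Af I y z = ∑ L, Nf I y L * Nf I z L
          - ((t : ℝ) + 1) * (1 : Matrix P P ℝ) y z := by rw [h2]; ring
      rw [h3, mul_sub, Finset.mul_sum]
      congr 1
      · exact Finset.sum_congr rfl fun L _ => by ring
      · ring
    simp_rw [h1, Finset.sum_sub_distrib, ← Finset.mul_sum]
    rw [Finset.sum_comm]
    simp_rw [← Finset.mul_sum, sum_Af_Nf h]
    have h4 : ∑ i, (1 : Matrix P P ℝ) i z * Af I x i = Af I x z := by simp [Matrix.one_apply]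
    have h5 : ∀ L, Nf I z L * (1 + ((s : ℝ) - 1) * Nf I x L)
        = Nf I z L + ((s : ℝ) - 1) * (Nf I x L * Nf I z L) := by
      intro L
      ring
    rw [h4]
    simp_rw [h5, Finset.sum_add_distrib, ← Finset.mul_sum, sum_lines h, sum_Nf_Nf h x z]
    ring
  line := by
    intro p q hpq z
    obtain ⟨hne, L, hp, hq⟩ := Af_one_iff.1 hpq
    have key : ∀ w, Af I p w * Af I q w + (1 : Matrix P P ℝ) p w + (1 : Matrix P P ℝ) q w
        = Nf I w L := by
      intro w
      by_cases h1 : p = w
      · subst h1
        rw [Af_self, Matrix.one_apply_eq, Matrix.one_apply_ne hne.symm, Nf_pos hp]; ring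
      · by_cases h2 : q = w
        · subst h2
          rw [Af_self, Matrix.one_apply_eq, Matrix.one_apply_ne hne, Nf_pos hq]; ring
        · rw [Matrix.one_apply_ne h1, Matrix.one_apply_ne h2]
          by_cases hw : I w L
          · rw [Af_pos h1 hp hw, Af_pos h2 hq hw, Nf_pos hw]; ring
          · rw [Nf_neg hw]
            rcases Af_zero_one (I := I) p w with h3 | h3
            · rw [h3]; ring
            · rcases Af_zero_one (I := I) q w with h4 | h4
              · rw [h4]; ring
              · exfalso
                obtain ⟨_, M1, h5, h6⟩ := Af_one_iff.1 h3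
                obtain ⟨_, M2, h7, h8⟩ := Af_one_iff.1 h4
                have e := (h.projection w L hw).unique
                  (y₁ := (p, M1)) (y₂ := (q, M2)) ⟨hp, h6, h5⟩ ⟨hq, h8, h7⟩
                exact hne (congrArg Prod.fst e)
    simp_rw [key]
    exact sum_Af_Nf h z L

end

/-- **There is no finite generalized quadrangle of order `(s, s^2 - s)` for any `s ≥ 3`.**
With `s = 4`, `t = 12`: there is none of order `(4, 12)`. -/
theorem result (s t : ℕ) (hs : 3 ≤ s) (ht : t + s = s ^ 2)
    (P : Type u) (B : Type v) [Finite P] [Finite B] [Nonempty P] (I : P → B → Prop) :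
    ¬ IsGQ I s t := by
  classical
  intro h
  haveI := Fintype.ofFinite P
  haveI := Fintype.ofFinite B
  have h1 := gqMat h
  have h2 : (t : ℝ) + 1 = (s : ℝ) ^ 2 - s + 1 := by
    have : (t : ℝ) + s = (s : ℝ) ^ 2 := by exact_mod_cast ht
    linarith
  rw [h2] at h1
  exact Pool.Agent.H253_GQ.no_GQMat s hs (Af I) h1

end Pool.Agent.Results.MP_a3aa3c_co.NoGQSqSubS
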